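import Pool.Agent.H.MP_e6ac48_pr.E

namespace Pool.Agent.Results.MP_e6ac48_pr.Both
open MeasureTheory Filter Pool.Agent.H.MP_e6ac48_pr

theorem result : ∃ (Ω : Type) (_ : MeasurableSpace Ω) (P : Measure Ω) (_ : IsProbabilityMeasure P)
    (θ : ℤ → ℝ → Ω → Ω) (ξ : Ω → ℤ → ℝ → ℝ),
    (∀ x t, MeasurePreserving (θ x t) P P) ∧ (∀ x y s t, θ (x + y) (s + t) = θ x s ∘ θ y t) ∧
    (∀ ω x y s t, ξ (θ x s ω) y t = ξ ω (x + y) (s + t)) ∧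
    (∀ F, MeasurableSet F → (∀ t, θ 0 t ⁻¹' F = F) → P F = 0 ∨ P F = 1) ∧
    (∀ F, MeasurableSet F → (∀ x, θ x 0 ⁻¹' F = F) → P F = 0 ∨ P F = 1) ∧
    (∀ x, Measurable fun p : Ω × ℝ => ξ p.1 x p.2) ∧ (∀ ω x t, 0 ≤ ξ ω x t ∧ ξ ω x t ≤ 1) ∧
    (¬ ∃ c, ∀ᵐ ω ∂P, ∀ x t, ξ ω x t = c) ∧
    (∀ ω κ γ t, 0 ≤ κ → 0 ≤ γ → 0 ≤ t → uu κ γ (ξ ω) t ≤ ENNReal.ofReal (Real.exp (γ * t))) ∧
    ∫ ω, ξ ω 0 0 ∂P ≤ 1 / 8 ∧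
    ∀ ω κ γ, 0 < κ → 0 < γ →
      Tendsto (fun t => Real.log (uu κ γ (ξ ω) t).toReal / t) atTop (nhds γ) :=
  ⟨KK, inferInstance, PP, inferInstance, th, xi, th_mp, th_add, xi_stat, erg_time, erg_space,
    xi_meas, xi_bd, not_const, fun ω _ _ _ a b c => (nice ω a b).uu_le c, rho_le,
    fun ω _ _ a b => lyap ω a b.le⟩

end Pool.Agent.Results.MP_e6ac48_pr.Both
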